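import Pool.Agent.W_MP_3bfddb_co.Transfer

set_option autoImplicit false

namespace Pool.Agent.Results.MP_3bfddb_co.AllPuncturedIntervalsTile

/-- Isometries of `ℤ^d`: compositions of a translation (by `v`), a permutation of the coordinates
(by `σ`) and sign changes of coordinates (by `ε`). -/
def IsLatticeIsometry (d : ℕ) (f : (Fin d → ℤ) → (Fin d → ℤ)) : Prop :=
  ∃ (σ : Equiv.Perm (Fin d)) (ε : Fin d → ℤˣ) (v : Fin d → ℤ),
    ∀ x i, f x i = v i + (ε i : ℤ) * x (σ i)

/-- The set `T ⊆ ℤ` placed on the first coordinate axis of `ℤ^d`. -/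
def onFirstAxis (d : ℕ) (T : Set ℤ) : Set (Fin d → ℤ) :=
  {x | ∃ t ∈ T, ∀ i : Fin d, x i = if (i : ℕ) = 0 then t else 0}

/-- `A` is a copy of `T` in `ℤ^d`. -/
def IsCopy (d : ℕ) (T : Set ℤ) (A : Set (Fin d → ℤ)) : Prop :=
  ∃ f, IsLatticeIsometry d f ∧ A = f '' onFirstAxis d T

/-- `T` tiles `ℤ^d`: the lattice is a disjoint union of copies of `T`. -/
def Tiles (d : ℕ) (T : Set ℤ) : Prop :=
  ∃ P : Set (Set (Fin d → ℤ)), (∀ A ∈ P, IsCopy d T A) ∧ P.PairwiseDisjoint id ∧
    ⋃₀ P = Set.univ

theorem isCopy_of_axisLines {d : ℕ} {T : Set ℤ} {A : Set (Fin d → ℤ)}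
    (hA : A ∈ W_MP_3bfddb_co.axisLines (Fin d) T) : IsCopy d T A := by
  obtain ⟨i, p, rfl⟩ := hA
  have hd : 0 < d := lt_of_le_of_lt (Nat.zero_le _) i.2
  let o : Fin d := ⟨0, hd⟩
  have ho : ∀ k : Fin d, (k : ℕ) = 0 ↔ k = o := fun k =>
    ⟨fun h => Fin.ext h, fun h => by rw [h]⟩
  refine ⟨fun x j => p j + x (Equiv.swap i o j), ⟨Equiv.swap i o, fun _ => 1, p, ?_⟩, ?_⟩
  · intro x j
    simp
  · ext x
    constructor
    · rintro ⟨h1, h2⟩
      refine ⟨fun j => if (j : ℕ) = 0 then x i - p i else 0, ⟨_, h1, fun j => rfl⟩, ?_⟩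
      funext j
      simp only [ho]
      by_cases hj : j = i
      · subst hj
        simp
      · have : Equiv.swap i o j ≠ o := by
          intro h
          apply hj
          have := congrArg (Equiv.swap i o) h
          rwa [Equiv.swap_apply_self, Equiv.swap_apply_right] at this
        rw [if_neg this, h2 j hj, add_zero]
    · rintro ⟨y, ⟨t, ht, hy⟩, rfl⟩
      refine ⟨?_, ?_⟩
      · have : y (Equiv.swap i o i) = t := by
          rw [Equiv.swap_apply_left, hy o]
          simp [o]
        simp only [this, add_sub_cancel_left]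
        exact ht
      · intro j hj
        have : Equiv.swap i o j ≠ o := by
          intro h
          apply hj
          have := congrArg (Equiv.swap i o) h
          rwa [Equiv.swap_apply_self, Equiv.swap_apply_right] at this
        have h0 : y (Equiv.swap i o j) = 0 := by
          rw [hy, if_neg (fun h => this ((ho _).1 h))]
        simp [h0]

/-- Every interval of at least two integers with one point removed tiles `ℤ^d` for every
`d ≥ 10`. -/
theorem result : ∀ d : ℕ, 10 ≤ d → ∀ a b c : ℤ, a ≤ c → c ≤ b → a < b →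
    Tiles d (Set.Icc a b \ {c}) := by
  intro d hd a b c hac hcb hab
  obtain ⟨P, hP, hdis, hU⟩ := W_MP_3bfddb_co.tileable_punctured d hd a b c hac hcb hab
  exact ⟨P, fun A hA => isCopy_of_axisLines (hP hA), hdis, hU⟩

end Pool.Agent.Results.MP_3bfddb_co.AllPuncturedIntervalsTile
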